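import Pool.Agent.Lib.MP_e13bdd_an.Every

namespace Pool.Agent.Results.MP_e13bdd_an.EveryHilbert

universe u

theorem result (H : Type u) [NormedAddCommGroup H] [InnerProductSpace ℂ H] [CompleteSpace H]
    [TopologicalSpace.SeparableSpace H] [MeasurableSpace H] [BorelSpace H]
    (h : ¬ FiniteDimensional ℂ H) :
    ∃ (T : H →L[ℂ] H) (μ : MeasureTheory.Measure H), MeasureTheory.IsProbabilityMeasure μ ∧
      (∀ A, MeasurableSet A → μ (T ⁻¹' A) = μ A) ∧ μ {0} = 0 ∧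
      (∀ A, MeasurableSet A → T ⁻¹' A = A → μ A = 0 ∨ μ A = 1) ∧
      ∀ (c : ℂ) (x : H), T x = c • x → x = 0 :=
  Pool.Agent.Lib.MP_e13bdd_an.every H h

end Pool.Agent.Results.MP_e13bdd_an.EveryHilbert
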